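import Pool.Agent.V1141.SO.CMain

/-!
# Tate classes on products of an arbitrary variety and of smooth projective varieties of all classical types

Let `K` be a finitely generated field (not finite) of any characteristic with Galois group `Γ` and
cyclotomic character `χ`, and let `k` be the algebraic closure of `ℚ_ℓ`. Let `U` be an ARBITRARY variety
over `K`, singular and not proper, and let `M` be a finite-dimensional representation of `Γ` over `k`, for
example (a twist of) a Borel-Moore étale homology group `H_b(U)`; it is mixed, and nothing is assumed
about it (not even its semisimplicity).

The following parts of the (co)homology of smooth projective varieties over `K` in any degrees are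
considered:

* type `GL`: for `j ∈ J`, two representations `V j` and `V' j` with a perfect pairing with values in a
  twist (`Piece`), for example the eigenspaces of a CM field which acts on the cohomology group in odd or
  even degree, for an embedding of the field and for its complex conjugate. For `j` in a subset
  `T` of `J`, the determinant of `V j` is a power of `χ` on a subgroup of finite index
  (`WeilClassesAreTate`): the Weil classes are Tate classes;
* type `O` and `Sp`: for `i ∈ I`, a representation with a nondegenerate symmetric or alternating form with
  multiplier `χ ^ w i` (`FormPiece`), for example the primitive or the transcendental part of the
  cohomology group in degree `w i`, even or odd, with the Poincare pairing, on which only the scalars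
  commute with a subgroup of finite index.

Let `H` be the sum of all these spaces, `V j`, `V' j` and the `FormPiece`s. Suppose that for ONE element
`γ` of `Γ`, for example a Frobenius element, (1) the eigenvalues on each `FormPiece` are simple and at most
one of them is self-dual, (2) the eigenvalues on the `FormPiece`s satisfy only the trivial multiplicative
relations with each other, with `χ(γ)` and with each eigenvalue of `γ` on `M`
(`NoRelationsUpToTwist`), (3) in a relation between the eigenvalues of `γ` on the `V j`, some
eigenvalues of `γ` on the `FormPiece`s, one eigenvalue of `γ` on `M` (or `1`) and `χ(γ)` the exponents of
the eigenvalues on `V j` are equal for each `j`, and are zero if `j` is not in `T`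
(`OnlyConstantRelationsAll`).

We prove that the Tate classes in all tensor products of `M` and of tensor powers of (the dual of) `H`,
that is the multilinear maps from `H^N` to `M` which commute with a subgroup of finite index, are
linear combinations of products of Tate classes in (twists of) `M` and of Tate forms on `H` with `2`
variables (pairings), with `dim (V j)` variables, `j ∈ T` (Weil classes), and with `dim V i` variables for
the `FormPiece`s with a symmetric form (discriminants). By the Künneth formula for Borel-Moore
homology, `H_b(X × U)` is the sum of the `H_a(X) ⊗ H_(b-a)(U)` for `X` smooth and projective. So
the Tate conjecture (part (a) of Jannsen's conjecture) for the classes on `X × U` in these tensor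
products, where `X` is a product of smooth projective varieties as above, follows from the part
concerning `M` of the conjecture for `U`, if the pairings, Weil classes and discriminants on `X` are
algebraic (for `J = ∅` and all `w i` odd only the pairings are needed, and these are algebraic if the
projections to the parts are).

The proof combines the first fundamental theorems for `GL` and `SL` (`Pool.Agent.V1141.WT`) and for
`SO` and `Sp` in all degrees (`Pool.Agent.V1141.SO.fftD`): the Tate classes with values in the
space of multilinear maps on the sum of the `FormPiece`s with values in `M` are split first.
-/

set_option autoImplicit false

namespace Pool.Agent.Results.MP_4776b1_ag.ClassicalTypesTimesSingular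

open Module Pool.Agent.V1141.WT Pool.Agent.V1141.OF Pool.Agent.V1141.SO

/-- **Tate classes on products of an arbitrary variety and of smooth projective varieties of all classical
types, from one element of the Galois group.** -/
theorem result {k : Type} [Field k] [CharZero k] [IsAlgClosed k] {Γ : Type} [Group Γ]
    {χ : Γ →* k} {J I : Type} [Fintype J] [Fintype I]
    -- the parts of type `GL`, with Weil classes for `j ∈ T`
    (R : J → Piece k χ) (T : Set J) (e : J → ℤ) (hT : WeilClassesAreTate R T e)
    -- the parts of type `O` and `Sp`
    (P : I → FormPiece k χ) (hEnd : ∀ i, OnlyScalarEndos (P i).ρ)
    -- the Borel-Moore homology of an arbitrary variety
    {M : Type} [AddCommGroup M] [Module k M] [FiniteDimensional k M] (τ : Representation k Γ M)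
    -- one element of the Galois group
    (γ : Γ) (α : ∀ j, Fin (dm R j) → k) (hα : AreEigenvalues R γ α)
    (hsimple : SimpleEigenvalues P γ) (hrel : NoRelationsUpToTwist P τ γ)
    (hind : OnlyConstantRelationsAll R P τ γ T α) :
    SplitIn (actW R P) τ χ (numbers R P T) := by
  classical
  exact cmain R P T e hT τ γ α hα hEnd hsimple hrel hind

end Pool.Agent.Results.MP_4776b1_ag.ClassicalTypesTimesSingular
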