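import Mathlib
import Pool.Agent.V1168.EV.Sing
import Pool.Agent.V1168.EV.Rel

/-!
# The conjectures of Jannsen on étale homology, (a) and (b), for the products of **every** variety,
singular or open, with abelian varieties outside of finitely many lines of slope vectors

Let `K i` (`i` in a finite set) be CM fields with pair flips (`PairFlips`): for any two complex
embeddings `φ` of `K i` and `ψ` of `K k` (with `i = k` or not) which are neither equal nor complex
conjugate, some automorphism of `ℂ` is the identity on `φ (K i)` and the complex conjugation on
`ψ (K k)`. One CM field `K` of degree `2 g` has this property if the Galois group of its normal closure
is the largest possible one (of order `2 ^ g g!`), or contains, for each pair of complex conjugate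
embeddings, an element which exchanges them and fixes all other embeddings, or contains all the
automorphisms that exchange two pairs in this sense (`g > 2`); several such fields with linearly
disjoint normal closures have it together. We fix an isomorphism `ν` of the algebraic closure of `ℚ_p`
with `ℂ`; it defines a `p`-adic valuation `v` of `ℂ` with `v p = 1`. The slope vector of a Weil number
`π` for `p ^ a` in `K i` is the function `2 v (φ π) - a` on the complex embeddings `φ` of `K i`
(`slopeVector`); it is odd: its values at conjugate embeddings are opposite.

Let `π i` be Weil numbers for `q = p ^ a` in `K i` with nonzero slope vectors, and let `f i` be monic
polynomials whose complex roots are conjugates of `π i` (`IsPolyOf`), for instance the characteristic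
polynomials of Frobenius of the abelian varieties in the isogeny classes of the `π i` over the field
with `q` elements. Let `A` be an abelian variety over the field with `Q = q ^ s` elements which is
isogenous to a product of powers of abelian varieties coming from the field with `q` elements, with
characteristic polynomials `f i` (`IsAbelian`).

Let `k` be a field, finitely generated over the field with `Q` elements, which is algebraically
closed in `k` (for instance the finite field itself), and let `X` be **any** separated scheme of finite
type over `k`, not necessarily smooth, proper, reduced or irreducible.

A number `ρ` comes from the finite set `Ω` of complex numbers (`From p Ω`) if it is not zero and a power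
of it is the product of a power of a conjugate of an element of `Ω`, or of `1`, and of a power of `p`.

We suppose that the eigenvalues of the Frobenius of the field of constants on the spaces of the
invariants of the geometric fundamental group (of an open part of a model of `k`) in the étale homology
groups `H_(2 j)(X, ℚ_ℓ(j))` over the separable closure come from `Ω` (`DiagFrom`; if `k` is finite these are
the eigenvalues of Frobenius on the homology). **There is a finite set `Ω` as required for every `X`**,
as these eigenvalues are Weil numbers of various weights (Deligne).

**The theorem: there is a set `E` of at most `|Ω|` lines, each of them in the space of the functions on
the complex embeddings of one of the fields `K i`, such that for all `a`, all `π i` whose slope vectors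
are not on the lines in `E`, all `f i`, `s`, `A` and all `X` as above the statement below is true.**
The lines depend only on `ν`, the fields and `Ω`, and not on the Weil numbers, on the powers of the
abelian varieties, on the finite field or on `X`. So for one field `K` and a given `X` all the Weil
numbers in `K` are allowed, except those whose slope vector is a multiple of one of at most `|Ω|`
vectors in the `g`-dimensional space of the odd functions; for instance, at most `2 |Ω|` of the `2 ^ g`
slope types of the ordinary abelian varieties with complex multiplication by `K` are exceptional for
`X`. (Exceptions to the Künneth formula behind the theorem are necessary: if `X = A` then there are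
divisor classes in `H^1(A) ⊗ H^1(X)`.)

The results of the starting files of this kind are about varieties whose Frobenius eigenvalues are
unrelated to the fields `K i` or have small slopes. **Here they are arbitrary**: they may generate the
same fields `K i`, or fields containing them. My `EveryVarietyTimes` for this problem is about **one**
family of Weil numbers `π i` (possibly in infinitely many fields), and bounds the total degree of the
fields of its exceptional members; for one field it only says something if its degree is bigger than
`|Ω|`. Here the fields are given, **all the Weil numbers in them are considered at the same time**, the
exceptions are on at most `|Ω|` lines, and `Ω` is any finite set (not stable under the automorphisms: one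
of each set of conjugates is sufficient; and its elements need not be in CM fields).

Let `G` be the Galois group of `k`, and `B_j(X)` the group of the classes of the cycles of dimension
`j` with integral coefficients in `H_(2 j)(X, ℚ_ℓ(j))` (in the question the homology with coefficients
`ℤ_ℓ` is used; its torsion is finite and without influence on the statements). There are products
`D t` of `c t` divisor classes on `A`, finitely many (independent of `X`), such that for all `j`

1. every element of `H_(2 j)(A × X, ℚ_ℓ(j))^G` is in a unique way the sum of the products of the `D t`
   with elements of `H_(2 i)(X, ℚ_ℓ(i))^G`, `i = j - (dim A - c t)`;
2. **(a) holds for `A × X` in dimension `j` if and only if it holds for `X` in the dimensions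
   `j - n`, `0 ≤ n ≤ dim A`**;
3. `B_j(A × X)` is finitely generated if and only if the groups `B_(j - n)(X)`, `0 ≤ n ≤ dim A`, are;
   and `B_j(A × X) ⊗ ℚ_ℓ → H_(2 j)(A × X, ℚ_ℓ(j))` is injective if and only if the same is true for
   `X` in the dimensions `j - n`;
4. **(b) holds for `A × X` in dimension `j` if and only if it holds for `X` in the dimensions
   `j - n`, `0 ≤ n ≤ dim A`.**

No conjecture is assumed, and neither a resolution of singularities nor a good proper cover of `X`. For
instance (a) and (b) hold for `A × X` in all dimensions if `X` is any curve, singular or open (with the
exceptions above for `A`). Question 2 is not treated.

The framework: the Chow ring and the ring of correspondences of `A`, with rational coefficients, and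
the cohomology of `A` with complex coefficients (we choose an isomorphism of the algebraic closure of
`ℚ_ℓ` with `ℂ`), with the formal properties and the theorems of Tate on divisors and of Kimura on the
nilpotence of homologically trivial correspondences (`AbelianData`, `IsAbelian`). The groups are indexed
by the codimension: with a fixed number `e` (for instance `dim X`) let `T^(2 c)(X, c) = CH_(e - c)(X)`
with rational coefficients, for (b) modulo homological equivalence, and let `R^(2 c)(X, c)` be the space of the invariants of the geometric
fundamental group in `H_(2 (e - c))(X, ℚ_ℓ(e - c))`, a vector space over `L = ℚ_ℓ` (`IsLinear`); for
`A × X` the number is `e + dim A`. On both there are the products with classes on `A`, the push-forward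
from `A × X` to `X`, the operation of the correspondences from `A` to `A` and the Frobenius of the field
of constants, operating through `X` (`frobN`, `frobM`; `RelData`, `IsRel`; it is to be read as `Q ^ e`
times the geometric Frobenius on the homology without twist, so that the Galois invariants are the
elements on which it is multiplication by `Q ^ c`: `InvN`, and `InvM` for `A × X`), and the cycle class
map `ρ` (`IsRegulator`; `SpanData`, `IsSpanTheory`; for (b) `TateData`, `IsTateTheory`, with the subgroups of the classes with integral
coefficients, `IntegralClasses`, and the absolute Frobenius acting on cycles as a power of `Q`,
`IsPureDiag`). The linear spans of the classes of the cycles are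
`spanN` and `spanM`. In `InvariantN`, `SurjectiveN` and the similar definitions the indices are
translated into dimensions.

The proof. Let `x i` be the slope vectors of the `π i`, and let `ρ` be a number that comes from
`β ∈ Ω`. If a product of `ρ` and of roots of the `f i`, no two of them complex conjugate, is a power of
`q` up to a root of unity, then, computing valuations, there are odd functions `n i`, not all zero, and
constants with `∑ n i φ * x i (σ φ) = c₁ v (σ β) + c₂` for all automorphisms `σ` of `ℂ` (the sum over all `i`
and all embeddings `φ`; the automorphism in the definition of `From` is absorbed by `n`). Take the odd
part, and average over the automorphisms which fix a given embedding `φ₀` of `K i`: by the pair flips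
the average of an odd function is zero except at `φ₀` and its conjugate, so that
`n i (σ⁻¹ φ₀) * x i φ₀` is determined by `c₁` and `β` (`EV.key`). For `β = 1` all these numbers are
zero, and there are no relations, as `x i` is not zero. In general it follows that, for each `i` with `n i` not zero, `x i` is
determined up to a factor by `β`: this is the exceptional line of `β` (`EV.exists_lines`). (The odd
functions on the embeddings of the `K i` are absolutely irreducible representations, not isomorphic
for different `i`.) Hence there are no such relations outside of the lines (`EV.exactPair_of`).
If a Weil number `α` of the cohomology of `A` and a number `ρ` that comes from `Ω` have the product `Q ^ j`, then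
`α = Q ^ k` and `α` is a product of pairs of complex conjugate numbers, so that the eigenvectors of the
Frobenius endomorphism of `A` for `α` are products of divisor classes. There are products `D t` of
`c t` divisor classes on `A` with a dual system `E t` for the intersection pairing; let `p` be the
projector given by them. For a suitable polynomial `P` the correspondence `(1 - p) P (F)` is
homologically trivial, hence nilpotent, and `P (F)` is invertible on the eigenspace of the Frobenius
endomorphism of `A × X` for `Q ^ j`. So `p` acts as the identity: `w = ∑ D t × (E t)_* w` for all `w` in
this eigenspace. The semisimplicity of Frobenius is not used. The `D t × w` and
the maps `(E t)_*` respect the eigenspaces and the spans of the classes of cycles, whence the theorem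
(`EV.tateSpanTimes`,
`EV.tateIsoTimes`, `EV.singularTateTimes`); for (b) one uses that a multiple of the projector has
integral coefficients.
-/

set_option autoImplicit false

namespace Pool.Agent.Results.MP_4776b1_ag.ExceptionalSlopeLines

open NumberField Pool.Agent.V1168.EV

/-- **For every variety `X` (singular or open) over a field finitely generated over a finite field,
with Frobenius eigenvalues from the finite set `Ω` and all abelian
varieties `A` given by Weil numbers in the CM fields `K i` (with pair flips), with slope vectors outside
of at most `|Ω|` lines: the statements (a)
and (b) of Jannsen for `A × X` in dimension `j` are equivalent to those for `X` in the dimensions
`j - k`, `0 ≤ k ≤ dim A`.** -/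
theorem result {p : ℕ} [Fact p.Prime] (ν : PadicAlgCl p ≃+* ℂ) {I : Type} [Finite I]
    (K : I → Type) [∀ i, Field (K i)] [∀ i, NumberField (K i)] [∀ i, IsCMField (K i)]
    (hK : PairFlips K) (Ω : Finset ℂ) :
    ∃ E : Finset (Σ i, ((K i →+* ℂ) → ℝ)), E.card ≤ Ω.card ∧
      ForAllOutside ν K (SingularTateTimes p Ω) E := by
  obtain ⟨E, hE, h⟩ := exists_lines_forall ν K hK Ω
  exact ⟨E, hE, h _ fun q f hq hR => singularTateTimes hq hR⟩

end Pool.Agent.Results.MP_4776b1_ag.ExceptionalSlopeLines
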