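import Pool.Agent.V11219.DeeMain

/-!
# The Tate conjectures for singular varieties covered by products: comparison of ranks

Let `W` be a Weil cohomology theory with algebraically closed coefficients (`ℓ`-adic cohomology with
coefficients in the algebraic closure of `ℚ_ℓ`) on a class of smooth proper varieties, and let `Γ` be a
group which acts on the cohomology of the varieties `X_i`, `Y_b`, `Z` and their products with the formal
properties of the Galois group `G_k` of a finitely generated field `k` of any characteristic, where a
subgroup of finite index acts on the classes of algebraic cycles by powers of the character `χ` (the
action on the Tate twists).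

All varieties `X_i` (`i` in a finite set) and `Y_b` (`b` in a finite set) have odd dimension, numerical
and homological equivalence coincide for them (for example curves, hypersurfaces, complete
intersections), and their transcendental cohomology `T(X_i)`, `T(Y_b)` (the orthogonal complement of the
algebraic classes) is concentrated in the middle degree; the `Y_b` have the same dimension, the
`T(X_i)` are irreducible under all subgroups of finite index and no two of them are isomorphic up to
scalars. **Nothing else is assumed on the `Y_b`**: they may be arbitrary curves, for instance with
arbitrary endomorphisms of the Jacobians. Nothing at all is assumed on `Z`.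

Let `N` be the set of the `g ∈ Γ` with `χ(g) = 1` which act trivially on the cohomology of `Z` and with
`(g - 1) ^ 2 = 0` on all `T(X_j)` and all `T(Y_b)` (inertia at the places `v` at which `Z` has good
reduction and the `X_j`, `Y_b` are curves with stable reduction, or hypersurfaces of odd dimension whose
reduction has ordinary double points; **all** of them may have bad reduction at `v`). Assume for
every `i`:

* **(small defects)** some `g ∈ N` has defects on `T(X_i)` without a common prime factor, or the defect
  two; here the defects of `g` are the rank of `g - 1` on `T(X_i)` and the multiplicities of the nonzero
  eigenvalues of `(g - 1) (g' - 1)` on `T(X_i)`, for `g' ∈ N`. (Or: the conjugates of some `g ∈ N` act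
  irreducibly on `T(X_i)` and the defects of all elements of `N` have no common prime factor.)
* **(larger rank)** for some `g ∈ N` the rank of `g - 1` on `T(X_i)` is larger than the sum of the
  ranks of `g - 1` on the `T(Y_b)`.

Let `Z₁` be a product of `Z` with arbitrary powers of the `Y_b`, and `T` a product of `Z₁` with arbitrary
powers of the `X_i`; suppose that numerical and homological equivalence coincide for the powers of
each single `X_i`. Then the following are **equivalent**:

1. the Tate conjecture for `T` (all classes on which a subgroup of finite index of `Γ` acts by a
   power of `χ` are combinations of cycle classes), the same for all direct factors of the cohomology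
   of `T` (`FactorsTate`), and the equality of numerical and homological equivalence for `T`;
2. the Tate conjecture for `Z₁` and the equality of numerical and homological equivalence for `Z₁`.

For a singular variety `V` with a good proper cover `V' ⊆ T` the space `W_0 H_{2i}(V, ℚ_ℓ(i))` is a direct
factor of the cohomology of `T`, by the map `f = π_* α^*`, and `FactorsTate` gives the surjectivity (a) of
`cl_i ⊗ ℚ_ℓ` for `V`, as in the reduction theorem of Jannsen. By a known argument of Tate the equality of
numerical and homological equivalence for `T` gives that `B_i(T) ⊗ ℚ` is finite dimensional and that the
map from `B_i(T) ⊗ ℚ_ℓ` to the cohomology of `T` is injective; so 1. contains the statements (a) and (b) for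
all the smooth proper varieties `T`, and it is deduced from the corresponding statement for `Z₁`.
Nothing is assumed on `Z`; for instance `Z` may be a point and the `Y_b` curves with products
for which the conjectures are known.

Proof. By the theory of extremal elements of Lie algebras, Goursat's lemma and the comparison of ranks
(see `MP_3703a7_ag.SemistableProducts`) and by the first fundamental theorem a potentially semi-invariant
class on the product of a power of `X_i` with `A` is a combination of products `m_l x_l` of algebraic
classes `m_l` of the power, linearly independent, with potentially semi-invariant classes `x_l` of `A`.
By the conjecture D for the power there are algebraic classes dual to the `m_l`; so `x_l` is the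
push-forward of the product of the class with an algebraic class, is algebraic if the class is, and
numerically equivalent to zero if the class is.
-/

universe u

namespace Pool.Agent.Results.MP_4776b1_ag.SemistableProducts

open Pool.Agent.H914 Pool.Agent.H281R3.HT Pool.Agent.TH125.Gal Pool.Agent.V11219.Min
  Pool.Agent.V11219.Cls

/-- **The Tate conjectures for varieties covered by products: comparison of ranks.** -/
theorem result {k : Type u} [Field k] {𝒱 : VarClass k} {ops : CycleOps 𝒱}
    (W : WeilCohomology.{u, 0} ops) [IsAlgClosed W.K] {Γ : Type} [Group Γ] (χ : CharOf W Γ)
    {ι β : Type} [Finite ι] [Fintype β] (X : ι → GVar W Γ) (Y : β → GVar W Γ) (d : ℕ)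
    (Z : GVar W Γ) (h : FamilyOver χ X Y d Z) (hD : ∀ i, PowersHomEqNum (X i)) (S' : Set β)
    (Z₁ : GVar W Γ) (hZ : Tower Y Z S' Z₁) (hs : ∀ S A, Tower X Z₁ S A → GaloisVar χ A)
    (S : Set ι) (T : GVar W Γ) (hT : Tower X Z₁ S T) :
    (TateIn χ (algSpan W) T ∧ FactorsTate χ (algSpan W) T ∧ HomEqNum W T.X) ↔
      (TateIn χ (algSpan W) Z₁ ∧ HomEqNum W Z₁.X) :=
  both_over h hD hZ hs hT

end Pool.Agent.Results.MP_4776b1_ag.SemistableProducts
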